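import Pool.Agent.TH733.RT.Main

/-!
# Common translates of independent random oracles: forms for use
-/

set_option autoImplicit false

namespace Pool.Agent.TH733.RT

open MeasureTheory Filter Pool.Agent.NPC Pool.Agent.H620R2.Gauge Pool.Agent.H622R2.Exp

theorem null_empty' : Null slowG (∅ : Set Oracle) := fun _ _ => ⟨∅, by simp, by simp⟩

/-- **Every pattern, polynomial time.** -/
theorem use_p {S : Set Oracle} (hS : Null slowG S) :
    (∀ B : ℕ → Oracle, ∃ A : Oracle, ∀ i L, IsPSPACE (xor2 A (B i)) L →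
      Reduces L {x | xor2 A (B i) x = true}) ∧
    ∀ᵐ B ∂randomSeq, ∀ I : Set ℕ, ∃ A : Oracle,
      (∀ i ∈ I, ∀ L, IsPSPACE (xor2 A (B i)) L → Reduces L {x | xor2 A (B i) x = true}) ∧
      ∀ i ∉ I, xor2 A (B i) ∉ S := by
  refine ⟨fun B => ?_, ?_⟩
  · obtain ⟨R, Φ, h1, -⟩ := main_p null_empty'
    refine ⟨Φ Set.univ B, fun i L hL => ?_⟩
    obtain ⟨e, he⟩ := h1 Set.univ B i (Set.mem_univ i) L hL
    exact reduces_code he
  · obtain ⟨R, Φ, h1, h2⟩ := main_p hS
    filter_upwards [h2] with B hB I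
    refine ⟨Φ I B, fun i hi L hL => ?_, fun i hi => hB I i hi⟩
    obtain ⟨e, he⟩ := h1 I B i hi L hL
    exact reduces_code he

end Pool.Agent.TH733.RT
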