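import Pool.Agent.TH733.RT.Use
import Pool.Agent.H622R2.Exp.A6

/-!
# Common translates of independent random oracles: the exponential level, form for use
-/

set_option autoImplicit false

namespace Pool.Agent.TH733.RT

open MeasureTheory Filter Pool.Agent.NPC Pool.Agent.H620R2.Gauge Pool.Agent.H622R2.Exp

/-- **Every pattern, exponential time.** -/
theorem use_e {E : Set (Polynomial ℕ)} (hE : Good E) {S : Set Oracle} (hS : Null slowG S) :
    (∀ B : ℕ → Oracle, ∃ A : Oracle, ∀ i L, InSpace E (xor2 A (B i)) L →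
      InTime E (xor2 A (B i)) L) ∧
    ∀ᵐ B ∂randomSeq, ∀ I : Set ℕ, ∃ A : Oracle,
      (∀ i ∈ I, ∀ L, InSpace E (xor2 A (B i)) L → InTime E (xor2 A (B i)) L) ∧
      ∀ i ∉ I, xor2 A (B i) ∉ S := by
  have key : ∀ (r : ℕ → Polynomial ℕ), (∀ e, r e ∈ E) → ∀ (D : Oracle) (L : Set (List Bool)),
      (∃ e, ∀ x, x ∈ L ↔ D (codeE (r e) e x) = true) → InTime E D L := by
    rintro r hr D L ⟨e, he⟩
    have h1 : L = {x | D (codeE (r e) e x) = true} := by
      ext x
      exact he x
    rw [h1]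
    exact inTime_code hE D (hr e) e
  refine ⟨fun B => ?_, ?_⟩
  · obtain ⟨r, Φ, hr, h1, -⟩ := main_e hE null_empty'
    exact ⟨Φ Set.univ B, fun i L hL => key r hr _ L (h1 Set.univ B i (Set.mem_univ i) L hL)⟩
  · obtain ⟨r, Φ, hr, h1, h2⟩ := main_e hE hS
    filter_upwards [h2] with B hB I
    exact ⟨Φ I B, fun i hi L hL => key r hr _ L (h1 I B i hi L hL), fun i hi => hB I i hi⟩

end Pool.Agent.TH733.RT
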