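import Pool.Agent.H622R2.Exp.C2

/-!
# One oracle that codes the computations relative to many of its translates

`B 0, B 1, ...` are arbitrary oracles and `I` is a set of numbers. The oracle `coded c V I B` is
such that, for all `j` in `I`, the translate of the coded oracle by `B j` (the symmetric difference)
contains its own code strings: the string `c ⟨2 ^ j, e⟩ x` is in the translate if and only if
`V e x D` holds for the translate `D`.
-/

set_option autoImplicit false

namespace Pool.Agent.TH733.RT

open Pool.Agent.NPC Pool.Agent.H620R2.Gauge Pool.Agent.H622R2.Exp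

/-- The symmetric difference of two oracles. -/
def xor2 (A B : Oracle) : Oracle := fun y => A y ^^ B y

/-- the number of the translate to which the code strings with index `e` belong -/
def own (e : ℕ) : ℕ := Nat.log 2 e.unpair.1

theorem own_pair (j e : ℕ) : own (Nat.pair (2 ^ j) e) = j := by
  unfold own
  rw [Nat.unpair_pair]
  exact Nat.log_pow (by norm_num) j

theorem two_pow_own (e : ℕ) : 2 ^ own e ≤ e + 1 := by
  unfold own
  rcases Nat.eq_zero_or_pos e.unpair.1 with h | h
  · rw [h]
    simp
  · have h1 := Nat.pow_log_le_self 2 h.ne'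
    have h2 := Nat.unpair_left_le e
    omega

/-- the code strings, with one index -/
def cc (c : ℕ → List Bool → List Bool) (p : ℕ × List Bool) : List Bool := c p.1 p.2

/-- the predicates that have to be coded -/
def comb (c : ℕ → List Bool → List Bool) (V : ℕ → List Bool → Oracle → Prop) (I : Set ℕ)
    (B : ℕ → Oracle) : ℕ × List Bool → Oracle → Prop := fun p A =>
  own p.1 ∈ I ∧ (V p.1.unpair.2 p.2 (xor2 A (B (own p.1))) ↔ ¬ B (own p.1) (c p.1 p.2) = true)

/-- the oracle -/
noncomputable def coded (c : ℕ → List Bool → List Bool) (V : ℕ → List Bool → Oracle → Prop)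
    (I : Set ℕ) (B : ℕ → Oracle) : Oracle := C2.Phi (cc c) (comb c V I B) (fun _ => false)

/-- The code strings are different and long; the predicate `V e x` depends only on the strings
shorter than its code strings. -/
structure Good' (c : ℕ → List Bool → List Bool) (V : ℕ → List Bool → Oracle → Prop) : Prop where
  inj : ∀ e x e' x', c e x = c e' x' → e = e' ∧ x = x'
  long : ∀ e x, e < (c e x).length
  loc : ∀ (e : ℕ) (x : List Bool) (A A' : Oracle),
    (∀ z : List Bool, z.length < (c e x).length → A z = A' z) →
      (V e.unpair.2 x A ↔ V e.unpair.2 x A')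

variable {c : ℕ → List Bool → List Bool} {V : ℕ → List Bool → Oracle → Prop}

theorem cc_inj (h : Good' c V) : Function.Injective (cc c) := by
  rintro ⟨e, x⟩ ⟨e', x'⟩ h1
  obtain ⟨rfl, rfl⟩ := h.inj _ _ _ _ h1
  rfl

theorem comb_local (h : Good' c V) (I : Set ℕ) (B : ℕ → Oracle) (p : ℕ × List Bool)
    (A A' : Oracle) (hA : ∀ z : List Bool, z.length < (cc c p).length → A z = A' z) :
    comb c V I B p A ↔ comb c V I B p A' := by
  unfold comb
  rw [h.loc p.1 p.2 (xor2 A (B (own p.1))) (xor2 A' (B (own p.1))) fun z hz => by
    unfold xor2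
    rw [hA z hz]]

theorem coded_iff (h : Good' c V) (I : Set ℕ) (B : ℕ → Oracle) (e : ℕ) (x : List Bool) :
    coded c V I B (c e x) = true ↔ comb c V I B (e, x) (coded c V I B) :=
  C2.Phi_code (cc c) (cc_inj h) (comb c V I B) (comb_local h I B) (fun _ => false) (e, x)

/-- the translates by the oracles in the list are closed under coding -/
theorem coded_code (h : Good' c V) {I : Set ℕ} (B : ℕ → Oracle) {j : ℕ} (hj : j ∈ I) (e : ℕ)
    (x : List Bool) :
    xor2 (coded c V I B) (B j) (c (Nat.pair (2 ^ j) e) x) = true ↔
      V e x (xor2 (coded c V I B) (B j)) := by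
  have h := coded_iff h I B (Nat.pair (2 ^ j) e) x
  unfold comb at h
  dsimp only at h
  rw [own_pair, Nat.unpair_pair] at h
  dsimp only at h
  generalize hc : coded c V I B (c (Nat.pair (2 ^ j) e) x) = u at h
  generalize hb : B j (c (Nat.pair (2 ^ j) e) x) = b at h
  have h0 : xor2 (coded c V I B) (B j) (c (Nat.pair (2 ^ j) e) x) = (u ^^ b) := by
    unfold xor2
    rw [hc, hb]
  rw [h0]
  by_cases hv : V e x (xor2 (coded c V I B) (B j))
  · cases u <;> cases b <;> simp_all
  · cases u <;> cases b <;> simp_all

/-- off the code strings the coded oracle is empty -/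
theorem coded_not (I : Set ℕ) (B : ℕ → Oracle) (y : List Bool) (h : ∀ e x, y ≠ c e x) :
    coded c V I B y = false := C2.Phi_not (cc c) _ _ y fun p => h p.1 p.2

/-- The coded oracle on the strings of length at most `n` depends only on `I` below `log n` and on
the oracles `B j`, `2 ^ j ≤ n`, `j ∈ I`, on the strings of length at most `n`. -/
theorem coded_congr (hV : Good' c V) {I I' : Set ℕ} {B B' : ℕ → Oracle} {n : ℕ}
    (hI : ∀ j, 2 ^ j ≤ n → (j ∈ I ↔ j ∈ I'))
    (hB : ∀ j, 2 ^ j ≤ n → j ∈ I → ∀ z : List Bool, z.length ≤ n → B j z = B' j z) :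
    ∀ y : List Bool, y.length ≤ n → coded c V I B y = coded c V I' B' y := by
  have key : ∀ m : ℕ, ∀ y : List Bool, y.length = m → y.length ≤ n →
      coded c V I B y = coded c V I' B' y := by
    intro m
    induction m using Nat.strong_induction_on with
    | _ m ih =>
      intro y hm hy
      by_cases hc : ∃ e x, y = c e x
      · obtain ⟨e, x, rfl⟩ := hc
        rw [Bool.eq_iff_iff, coded_iff hV, coded_iff hV]
        have hj : 2 ^ own e ≤ n := by
          have h3 := two_pow_own e
          have h4 := hV.long e x
          omega
        unfold comb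
        dsimp only
        by_cases hmem : own e ∈ I
        · have hmem' := (hI _ hj).1 hmem
          have h5 : B (own e) (c e x) = B' (own e) (c e x) := hB _ hj hmem _ hy
          have h6 : V e.unpair.2 x (xor2 (coded c V I B) (B (own e))) ↔
              V e.unpair.2 x (xor2 (coded c V I' B') (B' (own e))) := by
            refine hV.loc e x _ _ fun z hz => ?_
            unfold xor2
            rw [ih z.length (by omega) z rfl (by omega), hB _ hj hmem z (by omega)]
          rw [h5, h6]
          exact ⟨fun h => ⟨hmem', h.2⟩, fun h => ⟨hmem, h.2⟩⟩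
        · have hmem' : own e ∉ I' := fun h => hmem ((hI _ hj).2 h)
          exact ⟨fun h => absurd h.1 hmem, fun h => absurd h.1 hmem'⟩
      · push Not at hc
        rw [coded_not I B y hc, coded_not I' B' y hc]
  exact fun y hy => key y.length y rfl hy

end Pool.Agent.TH733.RT
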