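import Pool.Agent.TH733.RT.Space
import Pool.Agent.TH733.RT.Meas
import Mathlib.Analysis.SpecialFunctions.Pow.Asymptotics

/-!
# Common translates of independent random oracles: the two levels
-/

set_option autoImplicit false

namespace Pool.Agent.TH733.RT

open MeasureTheory Filter Pool.Agent.NPC Pool.Agent.H620R2.Gauge Pool.Agent.H622R2.Exp
open Pool.Agent.H622R2 (polyTime_of_poly_list)

/-- the gauge `1 + log (1 + log N)` -/
noncomputable def slowG (N : ℕ) : ℝ := 1 + Real.logb 2 ((Nat.log 2 N : ℝ) + 1)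

theorem slowG_le {N : ℕ} (hN : 2 ≤ N) : slowG N ≤ 2 + Real.logb 2 (Real.logb 2 N) := by
  have h0 : (0 : ℝ) < N := by
    have : 0 < N := by omega
    exact_mod_cast this
  have h1 : (Nat.log 2 N : ℝ) ≤ Real.logb 2 N := by
    rw [Real.le_logb_iff_rpow_le (by norm_num) h0, Real.rpow_natCast]
    exact_mod_cast Nat.pow_log_le_self 2 (by omega)
  have h2 : (1 : ℝ) ≤ Real.logb 2 N := by
    rw [Real.le_logb_iff_rpow_le (by norm_num) h0, Real.rpow_one]
    exact_mod_cast hN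
  unfold slowG
  have h3 : Real.logb 2 ((Nat.log 2 N : ℝ) + 1) ≤ Real.logb 2 (2 * Real.logb 2 N) :=
    Real.logb_le_logb_of_le (by norm_num) (by positivity) (by linarith)
  rw [Real.logb_mul (by norm_num) (by linarith), Real.logb_self_eq_one (by norm_num)] at h3
  linarith

theorem tendsto_loglog : Tendsto (fun N : ℕ => Real.logb 2 (Real.logb 2 (N : ℝ))) atTop atTop :=
  (Real.tendsto_logb_atTop (by norm_num)).comp
    ((Real.tendsto_logb_atTop (by norm_num)).comp tendsto_natCast_atTop_atTop)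

theorem ev_pow {ε : ℝ} (hε : 0 < ε) : ∀ᶠ u : ℝ in atTop, 2 + u ≤ 2 ^ (u ^ ε) := by
  have h1 := (isLittleO_log_rpow_atTop (r := ε) hε).bound (c := Real.log 2 / 2)
    (by have := Real.log_pos (by norm_num : (1 : ℝ) < 2); positivity)
  filter_upwards [h1, eventually_ge_atTop 2, (tendsto_rpow_atTop hε).eventually_ge_atTop 2]
    with u hu h2 h3
  have hlog2 := Real.log_pos (by norm_num : (1 : ℝ) < 2)
  have hu0 : 0 < u := by linarith
  rw [Real.norm_of_nonneg (Real.log_nonneg (by linarith)),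
    Real.norm_of_nonneg (Real.rpow_nonneg hu0.le _)] at hu
  have h4 : 2 + u ≤ 2 * u := by linarith
  refine h4.trans ?_
  rw [← Real.log_le_log_iff (by positivity) (by positivity), Real.log_rpow (by norm_num),
    Real.log_mul (by norm_num) hu0.ne']
  nlinarith

theorem ev_lin {ε : ℝ} (hε : 0 < ε) : ∀ᶠ u : ℝ in atTop, 2 + u ≤ 2 ^ (ε * u) := by
  have h1 := ev_pow (ε := 1 / 2) (by norm_num)
  have h2 : ∀ᶠ u : ℝ in atTop, u ^ (1 / 2 : ℝ) ≤ ε * u := by
    filter_upwards [(tendsto_rpow_atTop (y := 1 / 2) (by norm_num)).eventually_ge_atTop (1 / ε),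
      eventually_gt_atTop 0] with u h3 h4
    have h5 : u = u ^ (1 / 2 : ℝ) * u ^ (1 / 2 : ℝ) := by
      rw [← Real.rpow_add h4]
      norm_num
    have h6 : 0 ≤ u ^ (1 / 2 : ℝ) := Real.rpow_nonneg h4.le _
    have h7 : 1 ≤ ε * u ^ (1 / 2 : ℝ) := by
      rw [div_le_iff₀ hε] at h3
      linarith
    calc u ^ (1 / 2 : ℝ) = 1 * u ^ (1 / 2 : ℝ) := (one_mul _).symm
      _ ≤ (ε * u ^ (1 / 2 : ℝ)) * u ^ (1 / 2 : ℝ) := mul_le_mul_of_nonneg_right h7 h6
      _ = ε * (u ^ (1 / 2 : ℝ) * u ^ (1 / 2 : ℝ)) := by ring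
      _ = ε * u := by rw [← h5]
  filter_upwards [h1, h2] with u h3 h4
  exact h3.trans (Real.rpow_le_rpow_of_exponent_le (by norm_num) h4)

theorem slow_exp {ε : ℝ} (hε : 0 < ε) :
    ∀ᶠ N : ℕ in atTop, slowG N ≤ 2 ^ (Real.logb 2 (Real.logb 2 N)) ^ ε := by
  filter_upwards [tendsto_loglog.eventually (ev_pow hε), eventually_ge_atTop 2] with N h1 h2
  exact (slowG_le h2).trans h1

theorem slow_e {ε : ℝ} (hε : 0 < ε) :
    ∀ᶠ N : ℕ in atTop, slowG N ≤ (Real.logb 2 N) ^ ε := by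
  filter_upwards [tendsto_loglog.eventually (ev_lin hε), eventually_ge_atTop 3] with N h1 h2
  refine (slowG_le (by omega)).trans (h1.trans (le_of_eq ?_))
  have h0 : (0 : ℝ) < N := by
    have : 0 < N := by omega
    exact_mod_cast this
  have h3 : (0 : ℝ) < Real.logb 2 N := by
    apply Real.logb_pos (by norm_num)
    have : (1 : ℕ) < N := by omega
    exact_mod_cast this
  rw [mul_comm, Real.rpow_mul (by norm_num), Real.rpow_logb (by norm_num) (by norm_num) h3]

theorem slow_p {ε : ℝ} (hε : 0 < ε) :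
    ∀ᶠ N : ℕ in atTop, slowG N ≤ 2 ^ (Real.logb 2 N) ^ ε := by
  filter_upwards [slow_e hε, eventually_ge_atTop 1] with N h1 h2
  refine h1.trans ?_
  have h3 : (0 : ℝ) ≤ (Real.logb 2 N) ^ ε := by
    apply Real.rpow_nonneg
    apply Real.logb_nonneg (by norm_num)
    exact_mod_cast h2
  generalize (Real.logb 2 (N : ℝ)) ^ ε = t at *
  have h4 := Real.add_one_le_exp (t * Real.log 2)
  have h5 : (2 : ℝ) ^ t = Real.exp (t * Real.log 2) := by
    rw [mul_comm, Real.rpow_def_of_pos (by norm_num)]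
  have h6 := one_add_mul_self_le_rpow_one_add (s := 1) (by norm_num) (p := t)
  by_cases h7 : 1 ≤ t
  · have h8 := h6 h7
    norm_num at h8
    linarith
  · push Not at h7
    have h9 : (1 : ℝ) ≤ 2 ^ t := Real.one_le_rpow (by norm_num) h3
    linarith

/-- **Polynomial space.** There is a functional `Φ` such that, relative to all translates of
`Φ I B` by `B i`, `i ∈ I`, each language in `PSPACE` is many-one reducible to the oracle, and such
that almost surely no translate by another `B i` belongs to the null set `S`. -/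
theorem main_p {S : Set Oracle} (hS : Null slowG S) :
    ∃ (R : ℕ → Polynomial ℕ) (Φ : Set ℕ → (ℕ → Oracle) → Oracle),
      (∀ I B, ∀ i ∈ I, ∀ L, IsPSPACE (xor2 (Φ I B) (B i)) L →
        ∃ e, ∀ x, x ∈ L ↔ xor2 (Φ I B) (B i) (code R e x) = true) ∧
      ∀ᵐ B ∂randomSeq, ∀ I : Set ℕ, ∀ i ∉ I, xor2 (Φ I B) (B i) ∉ S := by
  obtain ⟨R, V, hg, h⟩ := exists_pspace
  exact ⟨R, coded (code R) V, h, ae_translates (slow_coded hg) hS⟩

theorem reduces_code {R : ℕ → Polynomial ℕ} {D : Oracle} {L : Set (List Bool)} {e : ℕ}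
    (h : ∀ x, x ∈ L ↔ D (code R e x) = true) : Reduces L {x | D x = true} :=
  ⟨fun x => code R e x, polyTime_of_poly_list (CC.poly_code R e), h⟩

/-- **Exponential space.** -/
theorem main_e {E : Set (Polynomial ℕ)} (hE : Good E) {S : Set Oracle} (hS : Null slowG S) :
    ∃ (r : ℕ → Polynomial ℕ) (Φ : Set ℕ → (ℕ → Oracle) → Oracle), (∀ e, r e ∈ E) ∧
      (∀ I B, ∀ i ∈ I, ∀ L, InSpace E (xor2 (Φ I B) (B i)) L →
        ∃ e, ∀ x, x ∈ L ↔ xor2 (Φ I B) (B i) (codeE (r e) e x) = true) ∧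
      ∀ᵐ B ∂randomSeq, ∀ I : Set ℕ, ∀ i ∉ I, xor2 (Φ I B) (B i) ∉ S := by
  obtain ⟨r, V, hr, hg, h⟩ := exists_expspace hE
  exact ⟨r, coded (fun e => codeE (r e) e) V, hr, h, ae_translates (slow_coded hg) hS⟩

end Pool.Agent.TH733.RT
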